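import Mathlib

namespace Pool.Agent.Results.MP_4a71d8_al.NotClosed

open Set

/-- The principal right ideal `sS`. -/
def rId {S : Type} [Monoid S] (s : S) : Set S := range fun x => s * x

/-- Any two principal right ideals are disjoint or meet in a principal right ideal. -/
def IsRightLCM (S : Type) [Monoid S] : Prop :=
  ∀ s t : S, rId s ∩ rId t = ∅ ∨ ∃ r : S, rId s ∩ rId t = rId r

/-- The core. -/
def core (S : Type) [Monoid S] : Set S := {a | ∀ s : S, (rId a ∩ rId s).Nonempty}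

/-- Core irreducible elements. -/
def CoreIrr {S : Type} [Monoid S] (s : S) : Prop :=
  s ∉ core S ∧ ∀ t : S, ∀ a ∈ core S, s = t * a → IsUnit a

/-- The letter map `1 ↦ 0`, fixing `0` and `2`. -/
def f (c : Fin 3) : Fin 3 := if c = 1 then 0 else c

/-- `φ^k` on words. -/
def ph (k : ℕ) (u : List (Fin 3)) : List (Fin 3) := if k = 0 then u else u.map f

lemma ff (u : List (Fin 3)) : (u.map f).map f = u.map f := by
  rw [List.map_map]; congr 1; funext c; revert c; decide

lemma ph_ph (j k : ℕ) (u : List (Fin 3)) : ph j (ph k u) = ph (k + j) u := by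
  unfold ph
  by_cases hj : j = 0 <;> by_cases hk : k = 0 <;> simp only [hj, hk, if_true, if_false, ff,
    add_zero, zero_add, Nat.add_eq_zero_iff, and_self, and_false, false_and]

lemma ph_append (k : ℕ) (u v : List (Fin 3)) : ph k (u ++ v) = ph k u ++ ph k v := by
  unfold ph; split_ifs <;> simp

/-- The semidirect product of `ℕ` with the free monoid on three letters. -/
@[ext] structure M where
  k : ℕ
  w : List (Fin 3)

instance : Monoid M where
  mul x y := ⟨x.k + y.k, ph y.k x.w ++ y.w⟩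
  one := ⟨0, []⟩
  mul_assoc x y z := by
    refine M.ext (add_assoc _ _ _) ?_
    show ph z.k (ph y.k x.w ++ y.w) ++ z.w = ph (y.k + z.k) x.w ++ (ph z.k y.w ++ z.w)
    rw [ph_append, ph_ph, List.append_assoc]
  one_mul x := by
    refine M.ext (zero_add _) ?_
    show ph x.k [] ++ x.w = x.w
    unfold ph; split_ifs <;> simp
  mul_one x := by
    refine M.ext (add_zero _) ?_
    show ph 0 x.w ++ [] = x.w
    simp [ph]

lemma mul_def (x y : M) : x * y = ⟨x.k + y.k, ph y.k x.w ++ y.w⟩ := rfl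

lemma mem_rId (x z : M) : z ∈ rId x ↔ x.k ≤ z.k ∧ ph (z.k - x.k) x.w <+: z.w := by
  constructor
  · rintro ⟨y, rfl⟩
    simp [mul_def]
  · rintro ⟨h, v, hv⟩
    exact ⟨⟨z.k - x.k, v⟩, M.ext (by simp [mul_def]; omega) hv⟩

lemma ph_prefix {u v : List (Fin 3)} (k : ℕ) (h : u <+: v) : ph k u <+: ph k v := by
  obtain ⟨w, rfl⟩ := h
  rw [ph_append]; exact List.prefix_append _ _

/-- If at level `m` the two words are comparable and below level `m` nothing is common,
the longer word generates the intersection. -/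
lemma lcm_of {x y : M} {m : ℕ} (hx : x.k ≤ m) (hy : y.k ≤ m)
    (h : ph (m - x.k) x.w <+: ph (m - y.k) y.w) (hm : ∀ z ∈ rId x ∩ rId y, m ≤ z.k) :
    rId x ∩ rId y = rId ⟨m, ph (m - y.k) y.w⟩ := by
  ext z
  constructor
  · intro hz
    have h1 := hm z hz
    have h2 := (mem_rId _ _).1 hz.2
    refine (mem_rId _ _).2 ⟨h1, ?_⟩
    show ph (z.k - m) (ph (m - y.k) y.w) <+: z.w
    rw [ph_ph, show m - y.k + (z.k - m) = z.k - y.k by omega]; exact h2.2
  · intro hz
    obtain ⟨h1, h2⟩ := (mem_rId _ _).1 hz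
    change m ≤ z.k at h1
    change ph (z.k - m) (ph (m - y.k) y.w) <+: z.w at h2
    have h3 := (ph_prefix (z.k - m) h).trans h2
    rw [ph_ph, show m - y.k + (z.k - m) = z.k - y.k by omega] at h2
    rw [ph_ph, show m - x.k + (z.k - m) = z.k - x.k by omega] at h3
    exact ⟨(mem_rId _ _).2 ⟨by omega, h3⟩, (mem_rId _ _).2 ⟨by omega, h2⟩⟩

lemma lcm : IsRightLCM M := by
  classical
  intro x y
  by_cases h : ∃ m, ∃ z ∈ rId x ∩ rId y, z.k = m
  · right
    obtain ⟨z, hz, hk⟩ := Nat.find_spec h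
    have hm : ∀ z' ∈ rId x ∩ rId y, z.k ≤ z'.k := fun z' hz' =>
      hk ▸ Nat.find_min' h ⟨z', hz', rfl⟩
    have h1 := (mem_rId _ _).1 hz.1
    have h2 := (mem_rId _ _).1 hz.2
    rcases List.prefix_or_prefix_of_prefix h1.2 h2.2 with h3 | h3
    · exact ⟨_, lcm_of h1.1 h2.1 h3 hm⟩
    · exact ⟨_, by rw [inter_comm] at hm ⊢; exact lcm_of h2.1 h1.1 h3 hm⟩
  · left
    exact eq_empty_of_forall_notMem fun z hz => h ⟨_, z, hz, rfl⟩

lemma not_core {c : Fin 3} (hc : c ≠ 2) : (⟨0, [c]⟩ : M) ∉ core M := by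
  intro h
  obtain ⟨z, h1, h2⟩ := h ⟨0, [2]⟩
  have h3 := ((mem_rId _ _).1 h1).2
  have h4 := ((mem_rId _ _).1 h2).2
  have h5 := List.prefix_or_prefix_of_prefix h3 h4
  have key : ∀ c : Fin 3, c ≠ 2 → ¬ ([c] <+: [2] ∨ [2] <+: [c]) ∧
      ¬ ([c].map f <+: [2].map f ∨ [2].map f <+: [c].map f) := by decide
  unfold ph at h5
  split_ifs at h5
  exacts [(key c hc).1 h5, (key c hc).2 h5]

lemma irr {c : Fin 3} (hc : c ≠ 2) : CoreIrr (⟨0, [c]⟩ : M) := by
  refine ⟨not_core hc, fun t a ha h => ?_⟩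
  have hk : 0 = t.k + a.k := congrArg M.k h
  have hw : [c] = ph a.k t.w ++ a.w := congrArg M.w h
  obtain ⟨k, w⟩ := a
  obtain rfl : k = 0 := by simp at hk; omega
  rcases w with _ | ⟨d, w⟩
  · exact isUnit_one
  · rcases List.singleton_eq_append_iff.1 hw with ⟨-, h2⟩ | ⟨-, h2⟩
    · rw [show (⟨0, d :: w⟩ : M) = ⟨0, [c]⟩ from M.ext rfl h2] at ha
      exact absurd ha (not_core hc)
    · simp at h2

theorem result : ∃ (S : Type) (_ : Monoid S), Countable S ∧ IsLeftCancelMul S ∧ IsRightLCM S ∧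
    ∃ s t r : S, CoreIrr s ∧ CoreIrr t ∧ rId s ∩ rId t = rId r ∧ ¬ CoreIrr r := by
  refine ⟨M, inferInstance, ?_, ⟨fun x y z h => ?_⟩, lcm, ⟨0, [0]⟩, ⟨0, [1]⟩, ⟨1, [0]⟩,
    irr (by decide), irr (by decide), ?_, fun h => ?_⟩
  · exact Function.Injective.countable (f := fun x : M => (x.k, x.w))
      fun x y h => M.ext (congrArg Prod.fst h) (congrArg Prod.snd h)
  · have hk : x.k + y.k = x.k + z.k := congrArg M.k h
    have hw : ph y.k x.w ++ y.w = ph z.k x.w ++ z.w := congrArg M.w h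
    have : y.k = z.k := by omega
    rw [this] at hw
    exact M.ext this (List.append_cancel_left hw)
  · refine lcm_of (m := 1) (by simp) (by simp) (by decide) fun z hz => ?_
    have h3 := ((mem_rId _ _).1 hz.1).2
    have h4 := ((mem_rId _ _).1 hz.2).2
    have h5 := List.prefix_or_prefix_of_prefix h3 h4
    by_contra h0
    rw [show z.k = 0 by omega] at h5
    revert h5; decide
  · have := h.2 ⟨0, [0]⟩ ⟨1, []⟩ (fun s => ⟨⟨s.k + 1, ph 1 s.w⟩, (mem_rId _ _).2 ⟨by simp, ?_⟩,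
      (mem_rId _ _).2 ⟨by simp, by simp⟩⟩) rfl
    · obtain ⟨y, hy⟩ := this.exists_right_inv
      have : 1 + y.k = 0 := congrArg M.k hy
      omega
    · show ph _ [] <+: _
      unfold ph; split_ifs <;> simp

end Pool.Agent.Results.MP_4a71d8_al.NotClosed
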